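import Pool.Agent.QSX.StmtsA

/-!
# Row WAR of squad QSX

`a / b` is the integer `a b ^ (p - 1)` times the power `(1 / b) ^ p`.
-/

set_option autoImplicit false

namespace Pool.Agent.QSX.H87

open Matrix Finset Pool.Agent.QSX

theorem war : WarStmt := by
  intro A c p q hc hp _ h z
  obtain ⟨k, rfl⟩ : ∃ k, p = k + 1 := ⟨p - 1, by omega⟩
  obtain ⟨w, rfl⟩ : ∃ w : ℚ, z = c * w := ⟨z / c, by field_simp⟩
  have h1 := A.zsmul_mem (h (1 / (w.den : ℚ)) 1) (w.num * (w.den : ℤ) ^ k)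
  have hd : (w.den : ℚ) ≠ 0 := by exact_mod_cast w.den_ne_zero
  have h2 : (w.num * (w.den : ℤ) ^ k) • (c * (1 / (w.den : ℚ)) ^ (k + 1) * 1 ^ q) = c * w := by
    have h3 : w = (w.num : ℚ) / (w.den : ℚ) := (Rat.num_div_den w).symm
    rw [zsmul_eq_mul, one_pow, mul_one]
    push_cast
    rw [one_div, inv_pow, pow_succ]
    calc (w.num : ℚ) * (w.den : ℚ) ^ k * (c * ((w.den : ℚ) ^ k * (w.den : ℚ))⁻¹)
        = c * ((w.num : ℚ) / (w.den : ℚ)) := by
          field_simp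
      _ = c * w := by rw [← h3]
  rw [h2] at h1
  exact h1

end Pool.Agent.QSX.H87
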